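import Pool.Agent.Lib_helper27.RT.Main

/-!
# The relation types of eleven points in the projective plane are 1, 3 and 5
-/

namespace Pool.Agent.Results.MP_2f9c58_ag.ElevenPoints

open MvPolynomial Pool.Agent.LibH27.RT

/-- Let `k` be an infinite field. Every set `X` of eleven points of the projective plane over `k`
has a relation type (the largest `T`-degree in a minimal bihomogeneous generating set of the Rees
ideal of minimal homogeneous generators of `I_X`, which does not depend on any choice), and the set
of the relation types of all such `X` is `{1, 3, 5}`. -/
theorem result {k : Type*} [Field k] [Infinite k] :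
    (∀ X : Finset (Projectivization k (Fin 3 → k)), X.card = 11 → ∃ r, IsRelType X r) ∧
    {r | ∃ X : Finset (Projectivization k (Fin 3 → k)), X.card = 11 ∧ IsRelType X r} =
      {1, 3, 5} :=
  main

end Pool.Agent.Results.MP_2f9c58_ag.ElevenPoints
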